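import Pool.Agent.MP_5d9b3c_ag.H48N.BasicO

/-!
The relative Cohen-Macaulay property: definitions and statement.
-/

namespace Pool.Agent.MP_5d9b3c_ag.H77R

open Finset Pool.Agent.MP_5d9b3c_ag.H22 Pool.Agent.MP_5d9b3c_ag.H48N

section Defs

variable {ι κ : Type} [Fintype ι] [LinearOrder ι]

/-- The part of a vector on the coordinates in `A`. -/
def cut (A : Finset ι) (x : ι → ℚ) : ι → ℚ := fun k => if k ∈ A then x k else 0

/-- The part of the exponent on the coordinates in `A`. -/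
def bA (B : κ → Pt ι) (A : Finset ι) (b : κ) : ι → ℚ := cut A (bx B b)

/-- No common zero in the torus of the logarithmic derivatives in all directions. -/
def NDall (B : κ → Pt ι) (c : κ → ℂ) (T : Finset κ) : Prop :=
  ∀ x : Option ι → ℂ, (∀ o, x o ≠ 0) → ∃ o, ∑ b ∈ T, c b * (B b o : ℂ) * ∏ o', x o' ^ B b o' ≠ 0

/-- Total nondegeneracy along the faces cut out by weights on the coordinates in `A`. -/
def RFaceND (B : κ → Pt ι) (c : κ → ℂ) (A : Finset ι) (T : Finset κ) : Prop :=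
  ∀ n : ι → ℚ, (∀ b ∈ T, 0 ≤ n ⬝ᵥ bA B A b) → (T.filter (fun b => n ⬝ᵥ bA B A b = 0)).Nonempty →
    NDall B c (T.filter (fun b => n ⬝ᵥ bA B A b = 0))

/-- The lattice points over the shifted cone; the coordinates outside `A` are free. -/
def CR (B : κ → Pt ι) (A : Finset ι) (T : Finset κ) (q y : Vq ι) : Set (Pt ι) :=
  {u | Cone (bA B A) T (cut A (pp q y u))}

end Defs

/-- Shifted cones are Cohen-Macaulay relative to the torus of the coordinates outside `A`. -/
def RCMStmt : Prop :=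
  ∀ (ι κ : Type) [Fintype ι] [LinearOrder ι] [Fintype κ] [DecidableEq κ] (B : κ → Pt ι)
    (c : κ → ℂ) (A : Finset ι) (T : Finset κ), (∃ d : ι → ℚ, ∀ b ∈ T, d ⬝ᵥ bA B A b = 1) →
    RFaceND B c A T → ∀ (q y : Vq ι) (k : ℕ) (P : Set (Pt ι)),
    (∀ b ∈ T, ∀ u, u + B b ∈ P ↔ u ∈ P) → #A < k + rk (bA B A) T →
    Ex (FT B c T) k (res A (CR B A T q y ∩ P)) (emp _ _)

end Pool.Agent.MP_5d9b3c_ag.H77R
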